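import Pool.Agent.R482.ST.Star
import Pool.Agent.Results.MP_48b1c3_nt.AnyPowerOfLog

/-!
# Lenstra's density for all members of sequences: counting of the exceptional integers and countability of the data
-/

set_option autoImplicit false

namespace Pool.Agent.K6.H83.LS

open NumberField Finset Filter Classical
open Pool.Agent.Results.MP_48b1c3_nt.AnyPowerOfLog (S δ)

/-- the algebraic numbers are countable -/
theorem cntAC : Countable (AlgebraicClosure ℚ) := by
  have h := Algebraic.countable ℚ (AlgebraicClosure ℚ)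
  have : Set.Countable (Set.univ : Set (AlgebraicClosure ℚ)) := by
    refine h.mono fun x _ => ?_
    exact (AlgebraicClosure.isAlgebraic ℚ).isAlgebraic x
  exact Set.countable_univ_iff.1 this

/-- the number fields are countable -/
theorem cntF :
    Countable {F : IntermediateField ℚ (AlgebraicClosure ℚ) // FiniteDimensional ℚ F} := by
  have := cntAC
  have hs : Function.Surjective (fun a : {a : AlgebraicClosure ℚ //
      FiniteDimensional ℚ (IntermediateField.adjoin ℚ {a})} =>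
     (⟨IntermediateField.adjoin ℚ {a.1}, a.2⟩ :
       {F : IntermediateField ℚ (AlgebraicClosure ℚ) // FiniteDimensional ℚ F})) := by
    rintro ⟨F, hF⟩
    obtain ⟨α, hα⟩ := Field.exists_primitive_element ℚ F
    have h1 : IntermediateField.adjoin ℚ {(α : AlgebraicClosure ℚ)} = F := by
      have h2 := IntermediateField.lift_adjoin_simple ℚ F α
      have h3 := IntermediateField.lift_top ℚ F
      rw [← h2]
      refine Eq.trans ?_ h3
      congr 1
    refine ⟨⟨(α : AlgebraicClosure ℚ), by rw [h1]; exact hF⟩, ?_⟩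
    exact Subtype.ext h1
  exact hs.countable

theorem cntU : Countable ℚˣ := (Units.val_injective (α := ℚ)).countable

/-- from dyadic blocks to initial segments -/
lemma dyadic (P : Set ℕ) (θ : ℝ) (hθ : 0 < θ) (N₀ : ℕ)
    (h : ∀ N : ℕ, N₀ ≤ N → (((Ioc (N / 2) N).filter (fun n => n ∈ P)).card : ℝ) ≤ (N : ℝ) ^ θ) :
    ∃ K : ℝ, 0 ≤ K ∧ ∀ X : ℕ, (((Ioc 0 X).filter (fun n => n ∈ P)).card : ℝ) ≤
      N₀ + K * (X : ℝ) ^ θ := by
  have h2 : (2 : ℝ) ^ (-θ) < 1 := by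
    rw [Real.rpow_neg (by norm_num)]
    exact inv_lt_one_of_one_lt₀ (Real.one_lt_rpow (by norm_num) hθ)
  have h20 : (0 : ℝ) < 2 ^ (-θ) := by positivity
  set K : ℝ := 1 / (1 - 2 ^ (-θ)) with hK
  have hK0 : 0 < K := by
    rw [hK]
    exact one_div_pos.2 (by linarith)
  have hKe : K * 2 ^ (-θ) + 1 = K := by
    have : K * (1 - 2 ^ (-θ)) = 1 := by
      rw [hK, one_div, inv_mul_cancel₀ (by linarith)]
    linarith
  refine ⟨K, hK0.le, fun X => ?_⟩
  induction X using Nat.strong_induction_on with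
  | _ X ih =>
    rcases lt_or_ge X N₀ with hX | hX
    · have h3 : ((Ioc 0 X).filter (fun n => n ∈ P)).card ≤ X := by
        refine (card_filter_le _ _).trans ?_
        simp
      have h4 : (((Ioc 0 X).filter (fun n => n ∈ P)).card : ℝ) ≤ N₀ := by
        exact_mod_cast h3.trans hX.le
      have h5 : 0 ≤ K * (X : ℝ) ^ θ := by positivity
      linarith
    · rcases Nat.eq_zero_or_pos X with h0 | h0
      · subst h0
        have h5 : 0 ≤ K * ((0 : ℕ) : ℝ) ^ θ := by positivity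
        have h6 : (0 : ℝ) ≤ N₀ := Nat.cast_nonneg _
        have h7 : ((Ioc 0 0).filter (fun n => n ∈ P)).card = 0 := by simp
        rw [h7]
        push_cast at h5 ⊢
        linarith
      · have h3 := ih (X / 2) (Nat.div_lt_self h0 (by norm_num))
        have h4 := h X hX
        have h5 : (Ioc 0 X).filter (fun n => n ∈ P) ⊆
            (Ioc 0 (X / 2)).filter (fun n => n ∈ P) ∪ (Ioc (X / 2) X).filter (fun n => n ∈ P) := by
          intro n hn
          rw [mem_filter, mem_Ioc] at hn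
          rw [mem_union, mem_filter, mem_filter, mem_Ioc, mem_Ioc]
          rcases le_or_gt n (X / 2) with h6 | h6
          · exact Or.inl ⟨⟨hn.1.1, h6⟩, hn.2⟩
          · exact Or.inr ⟨⟨h6, hn.1.2⟩, hn.2⟩
        have h6 := (card_le_card h5).trans (card_union_le _ _)
        have h7 : (((Ioc 0 X).filter (fun n => n ∈ P)).card : ℝ) ≤
            (((Ioc 0 (X / 2)).filter (fun n => n ∈ P)).card : ℝ) +
            (((Ioc (X / 2) X).filter (fun n => n ∈ P)).card : ℝ) := by exact_mod_cast h6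
        have h8 : ((X / 2 : ℕ) : ℝ) ^ θ ≤ (X : ℝ) ^ θ * 2 ^ (-θ) := by
          have e1 : ((X / 2 : ℕ) : ℝ) ≤ (X : ℝ) / 2 := Nat.cast_div_le
          calc ((X / 2 : ℕ) : ℝ) ^ θ ≤ ((X : ℝ) / 2) ^ θ :=
                Real.rpow_le_rpow (Nat.cast_nonneg _) e1 hθ.le
            _ = (X : ℝ) ^ θ * 2 ^ (-θ) := by
                rw [Real.div_rpow (Nat.cast_nonneg _) (by norm_num), Real.rpow_neg (by norm_num),
                  div_eq_mul_inv]
        have h9 : K * ((X / 2 : ℕ) : ℝ) ^ θ ≤ K * ((X : ℝ) ^ θ * 2 ^ (-θ)) :=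
          mul_le_mul_of_nonneg_left h8 hK0.le
        have h10 : K * ((X : ℝ) ^ θ * 2 ^ (-θ)) + (X : ℝ) ^ θ = K * (X : ℝ) ^ θ := by
          calc K * ((X : ℝ) ^ θ * 2 ^ (-θ)) + (X : ℝ) ^ θ = (K * 2 ^ (-θ) + 1) * (X : ℝ) ^ θ := by ring
            _ = _ := by rw [hKe]
        linarith

/-- the exceptional integers of a quadruple with the group `⟨W₀, D n ^ r⟩` -/
def Bad (C₀ B ε : ℝ) (F : IntermediateField ℚ (AlgebraicClosure ℚ)) [NumberField F]
    (C : Set (F ≃ₐ[ℚ] F)) (W₀ : Subgroup ℚˣ) (k : ℕ) (D : ℚˣ) (r : ℕ) : Set ℕ :=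
  {n : ℕ | ∃ x : ℕ, ((Real.log n) ^ C₀ ≤ x ∧ (x : ℝ) ≤ Real.exp ((Real.log n) ^ B)) ∧
    ε * (Nat.primeCounting x : ℝ) <
      |(S F C (W₀ ⊔ Subgroup.closure {w : ℚˣ | (w : ℚ) = (D : ℚ) * (n : ℚ) ^ r}) k x : ℝ) -
        δ F C (W₀ ⊔ Subgroup.closure {w : ℚˣ | (w : ℚ) = (D : ℚ) * (n : ℚ) ^ r}) k *
          (Nat.primeCounting x : ℝ)|}

lemma bad_count (θ C₀ B : ℝ) (hθ : 1 / 2 < θ) (hθ1 : θ < 1) (hC₀ : 1 / (2 * θ - 1) < C₀)
    (hB0 : 0 ≤ B) (hB : B < 1 / (2 * (1 - θ)))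
    (F : IntermediateField ℚ (AlgebraicClosure ℚ)) [NumberField F] [IsGalois ℚ F]
    (C : Set (F ≃ₐ[ℚ] F)) (W₀ : Subgroup ℚˣ) (k : ℕ) (D : ℚˣ) (r : ℕ)
    (hC : ∀ σ ∈ C, ∀ τ : F ≃ₐ[ℚ] F, τ * σ * τ⁻¹ ∈ C) (hW : W₀.FG) (hk : 0 < k) (hr : 0 < r)
    (hrk : ∀ l : ℕ, l.Prime → l ∣ r → l ^ (k.factorization l + 1) ∣ r) (ε : ℝ) (hε : 0 < ε) :
    ∃ K : ℝ, ∀ X : ℕ, 1 ≤ X → (((Ioc 0 X).filter (fun n => n ∈ Bad C₀ B ε F C W₀ k D r)).card : ℝ) ≤
      K * (X : ℝ) ^ θ := by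
  have h2θ : 0 < 2 * θ - 1 := by linarith
  obtain ⟨C₁, hC1, hC1'⟩ := exists_between hC₀
  have hC10 : 0 < C₁ := lt_trans (by positivity) hC1
  obtain ⟨N₀, hN₀⟩ := Pool.Agent.Results.MP_48b1c3_nt.AnyPowerOfLog.result θ C₁ B hθ hθ1 hC1 hB
    F C W₀ k D r hC hW hk hr hrk ε hε
  -- for large `u`, `(u + log 2) ^ C₁ ≤ u ^ C₀`
  have e1 : ∀ᶠ u : ℝ in atTop, (u + Real.log 2) ^ C₁ ≤ u ^ C₀ := by
    have h1 : ∀ᶠ u : ℝ in atTop, (2 : ℝ) ^ C₁ ≤ u ^ (C₀ - C₁) :=
      (tendsto_rpow_atTop (by linarith)).eventually_ge_atTop _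
    filter_upwards [h1, eventually_ge_atTop 1] with u h2 h3
    have h4 : Real.log 2 ≤ u := by
      have := Real.log_two_lt_d9
      linarith
    have h5 : 0 < Real.log 2 := Real.log_pos (by norm_num)
    calc (u + Real.log 2) ^ C₁ ≤ (2 * u) ^ C₁ :=
          Real.rpow_le_rpow (by linarith) (by linarith) hC10.le
      _ = 2 ^ C₁ * u ^ C₁ := Real.mul_rpow (by norm_num) (by linarith)
      _ ≤ u ^ (C₀ - C₁) * u ^ C₁ := by gcongr
      _ = u ^ C₀ := by
          rw [← Real.rpow_add (by linarith)]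
          ring_nf
  obtain ⟨U, hU⟩ := eventually_atTop.1 e1
  obtain ⟨N₁, hN₁⟩ := eventually_atTop.1
    (((tendsto_natCast_atTop_atTop (R := ℝ)).eventually
      (Real.tendsto_log_atTop.eventually_ge_atTop (U + Real.log 2))))
  obtain ⟨K, hK, hd⟩ := dyadic (Bad C₀ B ε F C W₀ k D r) θ (by linarith) (max (max N₀ N₁) 2) (by
    intro N hN
    have a1 : N₀ ≤ N := (le_max_left _ _).trans ((le_max_left _ _).trans hN)
    have a2 : N₁ ≤ N := (le_max_right _ _).trans ((le_max_left _ _).trans hN)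
    have a3 : 2 ≤ N := (le_max_right _ _).trans hN
    refine le_trans ?_ (hN₀ N a1)
    have hsub : (Ioc (N / 2) N).filter (fun n => n ∈ Bad C₀ B ε F C W₀ k D r) ⊆
        (Finset.Icc 1 N).filter (fun n : ℕ =>
            ∃ x : ℕ, ((Real.log N) ^ C₁ ≤ x ∧ (x : ℝ) ≤ Real.exp ((Real.log N) ^ B)) ∧
              ε * (Nat.primeCounting x : ℝ) <
                |(S F C (W₀ ⊔ Subgroup.closure {w : ℚˣ | (w : ℚ) = (D : ℚ) * (n : ℚ) ^ r}) k x : ℝ) -
                  δ F C (W₀ ⊔ Subgroup.closure {w : ℚˣ | (w : ℚ) = (D : ℚ) * (n : ℚ) ^ r}) k *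
                    (Nat.primeCounting x : ℝ)|) := by
      intro n hn
      rw [mem_filter, mem_Ioc] at hn
      obtain ⟨⟨hn1, hn2⟩, x, ⟨hx1, hx2⟩, hx3⟩ := hn
      have hn0 : 1 ≤ n := by omega
      have hn3 : N < 2 * n := by omega
      have hnr : (1 : ℝ) ≤ n := by exact_mod_cast hn0
      have hNr : (0 : ℝ) < N := by exact_mod_cast (by omega : 0 < N)
      have hlog : Real.log N ≤ Real.log n + Real.log 2 := by
        rw [← Real.log_mul (by positivity) (by norm_num)]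
        apply Real.log_le_log hNr
        have : (N : ℝ) ≤ ((2 * n : ℕ) : ℝ) := by exact_mod_cast hn3.le
        push_cast at this
        linarith
      have hu : U ≤ Real.log n := by
        have := hN₁ N a2
        linarith
      rw [mem_filter, mem_Icc]
      refine ⟨⟨hn0, hn2⟩, x, ⟨?_, ?_⟩, hx3⟩
      · calc (Real.log N) ^ C₁ ≤ (Real.log n + Real.log 2) ^ C₁ :=
              Real.rpow_le_rpow (Real.log_nonneg (by exact_mod_cast (by omega : 1 ≤ N))) hlog hC10.le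
          _ ≤ (Real.log n) ^ C₀ := hU _ hu
          _ ≤ x := hx1
      · refine hx2.trans (Real.exp_le_exp.2 ?_)
        apply Real.rpow_le_rpow (Real.log_nonneg hnr) _ hB0
        exact Real.log_le_log (by linarith) (by exact_mod_cast hn2)
    exact_mod_cast card_le_card hsub)
  refine ⟨((max (max N₀ N₁) 2 : ℕ) : ℝ) + K, fun X hX => (hd X).trans ?_⟩
  have h1 : (1 : ℝ) ≤ (X : ℝ) ^ θ := Real.one_le_rpow (by exact_mod_cast hX) (by linarith)
  have h2 : (0 : ℝ) ≤ ((max (max N₀ N₁) 2 : ℕ) : ℝ) := Nat.cast_nonneg _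
  nlinarith

end Pool.Agent.K6.H83.LS
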